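import Mathlib
import Pool.Agent.V11110.ToepScalar

/-!
The positive Toeplitz completion class is not stable under matrix amplification: the algebra of
convergent sequences belongs to it, its `2 × 2` matrix algebra does not.
-/

open Filter Topology Matrix ComplexOrder OnePoint Pool.Agent.V11110 Pool.Agent.V11110.Toep

namespace Pool.Agent.Results.MP_a15892_an.NotStable

/-- The Toeplitz matrix `[a (i - j)]`, `0 ≤ i, j ≤ k - 1`, over the C*-algebra `A`. -/
def toep {A : Type*} (k : ℕ) (a : ℤ → A) : CStarMatrix (Fin k) (Fin k) A :=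
  CStarMatrix.ofMatrix fun i j => a (((i : ℕ) : ℤ) - ((j : ℕ) : ℤ))

/-- The positive Toeplitz completion class: for all `0 < k < n` and all data `a l`,
`|l| ≤ k - 1`, with positive Toeplitz matrix `[a (i - j)]` of size `k`, there is a positive
Toeplitz matrix `[y (i - j)]` of size `n` with `y l = a l` for `|l| ≤ k - 1`. -/
def PTC (A : Type*) [NonUnitalCStarAlgebra A] [PartialOrder A] [StarOrderedRing A] : Prop :=
  ∀ k n : ℕ, 0 < k → k < n → ∀ a : ℤ → A, 0 ≤ toep k a →
    ∃ y : ℤ → A, 0 ≤ toep n y ∧ ∀ l : ℤ, |l| ≤ k - 1 → y l = a l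

/-- The algebra of convergent complex sequences. -/
abbrev Conv := C(OnePoint ℕ, ℂ)

/-- One-step extension for pointwise positive semidefinite data over `C(ℕ ∪ {∞})`. -/
lemma fun_step (m : ℕ) (a : ℤ → Conv) (h : ∀ x, (t (m + 1) (fun l => a l x)).PosSemidef) :
    ∃ z : Conv, ∀ x, (t (m + 2) (ext (fun l => a l x) (m + 1) (z x))).PosSemidef := by
  have hlim : ∀ l, Tendsto (fun n : ℕ => a l (n : OnePoint ℕ)) atTop (𝓝 (a l ∞)) := fun l =>
    (continuous_iff_from_nat (a l)).1 (a l).continuous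
  choose w hw using fun x => psd_step m (fun l => a l x) (h x)
  have hbd : ∀ n : ℕ, ‖w (n : OnePoint ℕ)‖ ≤ ‖a 0‖ := fun n =>
    (corner_le (hw n)).trans ((a 0).norm_coe_le_norm _)
  by_cases hpd : (t (m + 1) (fun l => a l ∞)).PosDef
  · -- nonsingular data at infinity
    obtain ⟨z₀, hz₀⟩ := posDef_step m _ hpd
    have hev : ∀ᶠ n : ℕ in atTop,
        (t (m + 2) (ext (fun l => a l (n : OnePoint ℕ)) (m + 1) z₀)).PosSemidef :=
      eventually_psd hz₀ (fun n => isHermitian_ext m _ _ (h n).isHermitian)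
        (fun i i' => ext_tendsto hlim tendsto_const_nhds i i')
    classical
    let f : ℕ → ℂ := fun n =>
      if (t (m + 2) (ext (fun l => a l (n : OnePoint ℕ)) (m + 1) z₀)).PosSemidef then z₀
      else w n
    have hf : Tendsto f atTop (𝓝 z₀) := by
      refine tendsto_const_nhds.congr' ?_
      filter_upwards [hev] with n hn
      simp [f, hn]
    refine ⟨continuousMapMkNat f z₀ hf, fun x => ?_⟩
    induction x using OnePoint.rec with
    | infty => exact hz₀.posSemidef
    | coe n =>
      show (t (m + 2) (ext (fun l => a l (n : OnePoint ℕ)) (m + 1) (f n))).PosSemidef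
      by_cases hn : (t (m + 2) (ext (fun l => a l (n : OnePoint ℕ)) (m + 1) z₀)).PosSemidef
      · have : f n = z₀ := by simp [f, hn]
        rw [this]; exact hn
      · have : f n = w n := by simp [f, hn]
        rw [this]; exact hw n
  · -- singular data at infinity: uniqueness
    have hf : Tendsto (fun n : ℕ => w (n : OnePoint ℕ)) atTop (𝓝 (w ∞)) := by
      refine tendsto_of_subseq_tendsto fun ns hns => ?_
      have hmem : ∀ n, w ((ns n : ℕ) : OnePoint ℕ) ∈ Metric.closedBall (0 : ℂ) ‖a 0‖ := fun n => by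
        rw [mem_closedBall_zero_iff]; exact hbd _
      obtain ⟨z₁, -, φ, hφ, hφlim⟩ :=
        (isCompact_closedBall (0 : ℂ) ‖a 0‖).tendsto_subseq hmem
      have h1 : (t (m + 2) (ext (fun l => a l ∞) (m + 1) z₁)).PosSemidef :=
        psd_of_tendsto (fun j => hw ((ns (φ j) : ℕ) : OnePoint ℕ))
          (fun i i' => ext_tendsto
            (fun l => (hlim l).comp (hns.comp hφ.tendsto_atTop)) hφlim i i')
      have h2 : z₁ = w ∞ := unique_step m _ (h ∞) hpd h1 (hw ∞)
      exact ⟨φ, by rw [← h2]; exact hφlim⟩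
    refine ⟨continuousMapMkNat (fun n => w n) (w ∞) hf, fun x => ?_⟩
    induction x using OnePoint.rec with
    | infty => exact hw ∞
    | coe n => exact hw n

/-- Extension to any size. -/
lemma fun_ext (k : ℕ) (hk : 0 < k) (d : ℕ) (a : ℤ → Conv)
    (h : ∀ x, (t k (fun l => a l x)).PosSemidef) :
    ∃ y : ℤ → Conv, (∀ x, (t (k + d) (fun l => y l x)).PosSemidef) ∧
      ∀ l : ℤ, |l| ≤ k - 1 → y l = a l := by
  induction d with
  | zero => exact ⟨a, h, fun _ _ => rfl⟩
  | succ d ih =>
    obtain ⟨y, hy, hya⟩ := ih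
    obtain ⟨m, hm⟩ : ∃ m, k + d = m + 1 := ⟨k + d - 1, by omega⟩
    rw [hm] at hy
    obtain ⟨z, hz⟩ := fun_step m y hy
    refine ⟨ext y (m + 1) z, fun x => ?_, fun l hl => ?_⟩
    · have h1 : k + (d + 1) = m + 2 := by omega
      rw [h1]
      have h2 : (fun l => ext y (m + 1) z l x) = ext (fun l => y l x) (m + 1) (z x) := by
        funext l
        rw [Toep.ext, Toep.ext]
        split_ifs <;> rfl
      rw [h2]
      exact hz x
    · rw [ext_of_lt y z (by omega), hya l hl]

/-- Positive elements of a C*-algebra. -/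
lemma exists_star_mul {D : Type*} [NonUnitalCStarAlgebra D] [PartialOrder D] [StarOrderedRing D]
    {d : D} (h : 0 ≤ d) : ∃ z : D, d = star z * z :=
  CStarAlgebra.nonneg_iff_eq_star_mul_self.1 h

/-- Selfadjoint elements of a C*-algebra with nonnegative spectrum are positive. -/
lemma nonneg_of_spectrum {D : Type*} [CStarAlgebra D] [PartialOrder D] [StarOrderedRing D]
    {d : D} (hd : IsSelfAdjoint d) (h : ∀ r ∈ spectrum ℝ d, 0 ≤ r) : 0 ≤ d :=
  (StarOrderedRing.nonneg_iff_spectrum_nonneg (R := ℝ) d hd).2 h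

/-- Evaluation at a point. -/
lemma toep_eval {k : ℕ} {a : ℤ → Conv} (h : 0 ≤ toep k a) (x : OnePoint ℕ) :
    (t k (fun l => a l x)).PosSemidef := by
  obtain ⟨Z, hZ⟩ := exists_star_mul h
  let Zx : Matrix (Fin k) (Fin k) ℂ := Matrix.of fun i j => Z i j x
  have h1 : t k (fun l => a l x) = Zxᴴ * Zx := by
    ext i j
    have h2 := congrArg (fun M : CStarMatrix (Fin k) (Fin k) Conv => M i j x) hZ
    simp only [CStarMatrix.mul_apply, CStarMatrix.star_apply, ContinuousMap.sum_apply,
      ContinuousMap.mul_apply, ContinuousMap.star_apply] at h2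
    rw [t_apply, Matrix.mul_apply]
    exact h2
  rw [h1]
  exact Matrix.posSemidef_conjTranspose_mul_self Zx

/-- Pointwise positive semidefinite matrices over `C(ℕ ∪ {∞})` are positive. -/
lemma toep_nonneg {k : ℕ} {a : ℤ → Conv} (h : ∀ x, (t k (fun l => a l x)).PosSemidef) :
    0 ≤ toep k a := by
  have hsa : IsSelfAdjoint (toep k a) := by
    show star (toep k a) = toep k a
    ext i j x
    rw [CStarMatrix.star_apply, ContinuousMap.star_apply]
    exact (h x).isHermitian.apply i j
  refine nonneg_of_spectrum hsa fun r hr => ?_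
  by_contra hneg
  push Not at hneg
  apply hr
  -- the determinant of `r - T` has no zeros
  let N : Matrix (Fin k) (Fin k) Conv :=
    algebraMap ℝ (Matrix (Fin k) (Fin k) Conv) r -
      Matrix.of fun i j : Fin k => a (((i : ℕ) : ℤ) - ((j : ℕ) : ℤ))
  have hN : IsUnit N := by
    rw [Matrix.isUnit_iff_isUnit_det, ContinuousMap.isUnit_iff_forall_ne_zero]
    intro x hx
    let ev : Conv →+* ℂ := (ContinuousMap.evalAlgHom ℂ ℂ x : Conv →ₐ[ℂ] ℂ)
    have h1 : ev N.det = 0 := hx
    rw [RingHom.map_det] at h1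
    have h2 : ev.mapMatrix N = -(t k (fun l => a l x) + ((-r : ℝ) : ℂ) • (1 : Matrix _ _ ℂ)) := by
      ext i j
      simp only [N, RingHom.mapMatrix_apply, Matrix.map_apply, Matrix.sub_apply, Matrix.of_apply,
        Matrix.neg_apply, Matrix.add_apply, Matrix.smul_apply, t_apply, map_sub]
      by_cases hij : i = j
      · subst hij
        have h3 : ev ((algebraMap ℝ (Matrix (Fin k) (Fin k) Conv)) r i i) = (r : ℂ) := by
          rw [Matrix.algebraMap_matrix_apply, if_pos rfl]
          rfl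
        rw [h3, Matrix.one_apply_eq]
        show (r : ℂ) - a _ x = _
        push_cast
        simp
        ring
      · have h3 : ev ((algebraMap ℝ (Matrix (Fin k) (Fin k) Conv)) r i j) = 0 := by
          rw [Matrix.algebraMap_matrix_apply, if_neg hij, map_zero]
        rw [h3, Matrix.one_apply_ne hij]
        show 0 - a _ x = _
        simp
    rw [h2, Matrix.det_neg] at h1
    have h4 : (t k (fun l => a l x) + ((-r : ℝ) : ℂ) • (1 : Matrix _ _ ℂ)).PosDef := by
      refine Matrix.PosDef.posSemidef_add (h x) (Matrix.PosDef.one.smul ?_)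
      have : (0 : ℝ) < -r := by linarith
      exact_mod_cast this
    have h5 := (Matrix.isUnit_iff_isUnit_det _).1 h4.isUnit
    have h6 : ((-1 : ℂ)) ^ Fintype.card (Fin k) ≠ 0 := pow_ne_zero _ (by norm_num)
    exact (mul_ne_zero h6 h5.ne_zero) h1
  exact hN

/-- The algebra of convergent sequences belongs to the class. -/
lemma ptc_conv : PTC Conv := by
  intro k n hk hkn a ha
  obtain ⟨y, hy, hya⟩ := fun_ext k hk (n - k) a (toep_eval ha)
  have hn : k + (n - k) = n := by omega
  rw [hn] at hy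
  exact ⟨y, toep_nonneg hy, hya⟩

/-! ### The counterexample over `2 × 2` matrices -/

/-- `1 / (n + 1)`. -/
noncomputable def ρ (n : ℕ) : ℂ := 1 / ((n : ℂ) + 1)
/-- The signs. -/
noncomputable def σ (n : ℕ) : ℂ := (-1) ^ n

lemma ρ_real (n : ℕ) : star (ρ n) = ρ n := by
  simp [ρ]

lemma ρ_ne (n : ℕ) : ρ n ≠ 0 := by
  have h : ((n : ℂ) + 1) ≠ 0 := by exact_mod_cast Nat.succ_ne_zero n
  exact one_div_ne_zero h

lemma σ_real (n : ℕ) : star (σ n) = σ n := by
  simp [σ]

lemma σ_sq (n : ℕ) : σ n * σ n = 1 := by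
  rw [σ, ← pow_add, ← two_mul, pow_mul]
  norm_num

lemma tendsto_ρ : Tendsto ρ atTop (𝓝 0) := tendsto_one_div_add_atTop_nhds_zero_nat (𝕜 := ℂ)

lemma norm_σ (n : ℕ) : ‖σ n‖ = 1 := by simp [σ]

lemma tendsto_τ : Tendsto (fun n => σ n * ρ n) atTop (𝓝 0) := by
  rw [tendsto_zero_iff_norm_tendsto_zero]
  have h : (fun n => ‖σ n * ρ n‖) = fun n => ‖ρ n‖ := by
    funext n
    rw [norm_mul, norm_σ, one_mul]
  rw [h]
  exact tendsto_zero_iff_norm_tendsto_zero.1 tendsto_ρ

/-- The sequence `ρ`. -/
noncomputable def R : Conv := continuousMapMkNat ρ 0 tendsto_ρ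
/-- The sequence `σ ρ`. -/
noncomputable def Ta : Conv := continuousMapMkNat (fun n => σ n * ρ n) 0 tendsto_τ

lemma R_coe (n : ℕ) : R (n : OnePoint ℕ) = ρ n := rfl
lemma R_inf : R ∞ = 0 := rfl
lemma Ta_coe (n : ℕ) : Ta (n : OnePoint ℕ) = σ n * ρ n := rfl
lemma Ta_inf : Ta ∞ = 0 := rfl

/-- The algebra of `2 × 2` matrices over the convergent sequences. -/
abbrev M₂ := CStarMatrix (Fin 2) (Fin 2) Conv

/-- The diagonal entry of the data. -/
noncomputable def a₀ : M₂ := CStarMatrix.ofMatrix !![1, 0; 0, R * R]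
/-- The off-diagonal entry of the data. -/
noncomputable def a₁ : M₂ := CStarMatrix.ofMatrix !![0, R; Ta, 0]
/-- The data. -/
noncomputable def dat : ℤ → M₂ := fun l =>
  if l = 0 then a₀ else if l = 1 then a₁ else if l = -1 then star a₁ else 0

/-- A factor of the Toeplitz matrix of the data. -/
noncomputable def W : CStarMatrix (Fin 2) (Fin 2) M₂ :=
  CStarMatrix.ofMatrix !![CStarMatrix.ofMatrix !![1, 0; 0, R], 0;
    CStarMatrix.ofMatrix !![0, 1; Ta, 0], 0]

lemma starR : star R = R := by
  ext x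
  induction x using OnePoint.rec with
  | infty => simp [R_inf]
  | coe n => rw [ContinuousMap.star_apply, R_coe, ρ_real]

lemma TaTa : Ta * star Ta = R * R := by
  ext x
  induction x using OnePoint.rec with
  | infty => simp [R_inf, Ta_inf]
  | coe n =>
    rw [ContinuousMap.mul_apply, ContinuousMap.mul_apply, ContinuousMap.star_apply, R_coe, Ta_coe,
      star_mul', ρ_real, σ_real]
    linear_combination (ρ n * ρ n) * σ_sq n

lemma toep_dat : toep 2 dat = W * star W := by
  ext i j p q x
  rw [CStarMatrix.mul_apply, Fin.sum_univ_two, CStarMatrix.add_apply, CStarMatrix.mul_apply,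
    CStarMatrix.mul_apply, Fin.sum_univ_two, Fin.sum_univ_two]
  simp only [CStarMatrix.star_apply]
  have hR : (starRingEnd ℂ) (R x) = R x := by
    have := congrArg (fun f : Conv => f x) starR
    exact this
  have hT : Ta x * (starRingEnd ℂ) (Ta x) = R x * R x := by
    have := congrArg (fun f : Conv => f x) TaTa
    exact this
  fin_cases i <;> fin_cases j <;> fin_cases p <;> fin_cases q <;>
    simp [toep, dat, a₀, a₁, W, CStarMatrix.star_apply, hR, hT]

/-- Elements `w w^*` of a C*-algebra are positive. -/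
lemma mul_star_nonneg' {D : Type*} [NonUnitalCStarAlgebra D] [PartialOrder D]
    [StarOrderedRing D] (d : D) : 0 ≤ d * star d := mul_star_self_nonneg d

/-- The matrix algebra does not belong to the class. -/
lemma not_ptc_M₂ : ¬ PTC M₂ := by
  intro hptc
  have h0 : 0 ≤ toep 2 dat := by
    rw [toep_dat]
    exact mul_star_nonneg' W
  obtain ⟨y, hy, hyd⟩ := hptc 2 3 (by norm_num) (by norm_num) dat h0
  obtain ⟨V, hV⟩ := exists_star_mul hy
  have hy0 : y 0 = a₀ := by rw [hyd 0 (by norm_num)]; rfl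
  have hy1 : y 1 = a₁ := by rw [hyd 1 (by norm_num)]; rfl
  have hym : y (-1) = star a₁ := by rw [hyd (-1) (by norm_num)]; rfl
  -- the entry `y 2 0 0` at the point `n` is `(-1) ^ n`
  have key : ∀ n : ℕ, (y 2) 0 0 (n : OnePoint ℕ) = σ n := by
    intro n
    let M : Matrix (Fin 3 × Fin 2) (Fin 3 × Fin 2) ℂ :=
      Matrix.of fun p q => (y (((p.1 : ℕ) : ℤ) - ((q.1 : ℕ) : ℤ))) p.2 q.2 (n : OnePoint ℕ)
    let Vn : Matrix (Fin 3 × Fin 2) (Fin 3 × Fin 2) ℂ :=
      Matrix.of fun p q => (V p.1 q.1) p.2 q.2 (n : OnePoint ℕ)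
    have hM : M = Vnᴴ * Vn := by
      ext p q
      have h2 := congrArg (fun Z : CStarMatrix (Fin 3) (Fin 3) M₂ =>
        Z p.1 q.1 p.2 q.2 (n : OnePoint ℕ)) hV
      simp only [CStarMatrix.mul_apply, CStarMatrix.star_apply] at h2
      rw [Matrix.mul_apply, Fintype.sum_prod_type]
      refine Eq.trans h2 ?_
      rw [Fin.sum_univ_three, CStarMatrix.add_apply, CStarMatrix.add_apply]
      rw [CStarMatrix.mul_apply, CStarMatrix.mul_apply, CStarMatrix.mul_apply]
      simp only [CStarMatrix.star_apply, ContinuousMap.add_apply, ContinuousMap.sum_apply,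
        ContinuousMap.mul_apply, ContinuousMap.star_apply]
      rw [Fin.sum_univ_three]
      rfl
    have hpsd : M.PosSemidef := by
      rw [hM]
      exact Matrix.posSemidef_conjTranspose_mul_self Vn
    let w : Fin 3 × Fin 2 → ℂ := fun p =>
      if p = (0, 0) then ρ n else if p = (1, 1) then -σ n else 0
    have hw : ∀ p, (M *ᵥ w) p = M p (0, 0) * ρ n - M p (1, 1) * σ n := by
      intro p
      simp only [mulVec, dotProduct]
      rw [Fintype.sum_prod_type]
      simp [Fin.sum_univ_three, Fin.sum_univ_two, w]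
      ring
    have e1 : M (0, 0) (0, 0) = 1 := by
      show (y 0) 0 0 (n : OnePoint ℕ) = 1
      rw [hy0]; rfl
    have e2 : M (0, 0) (1, 1) = σ n * ρ n := by
      show (y (-1)) 0 1 (n : OnePoint ℕ) = _
      rw [hym, CStarMatrix.star_apply, ContinuousMap.star_apply]
      show star (Ta (n : OnePoint ℕ)) = _
      rw [Ta_coe, star_mul', σ_real, ρ_real]
    have e3 : M (1, 1) (0, 0) = σ n * ρ n := by
      show (y 1) 1 0 (n : OnePoint ℕ) = _
      rw [hy1]; rfl
    have e4 : M (1, 1) (1, 1) = ρ n * ρ n := by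
      show (y 0) 1 1 (n : OnePoint ℕ) = _
      rw [hy0]; rfl
    have e5 : M (2, 0) (1, 1) = ρ n := by
      show (y 1) 0 1 (n : OnePoint ℕ) = _
      rw [hy1]; rfl
    have e6 : M (2, 0) (0, 0) = (y 2) 0 0 (n : OnePoint ℕ) := rfl
    have hs := σ_sq n
    have h00 : (M *ᵥ w) (0, 0) = 0 := by
      rw [hw, e1, e2]
      linear_combination (-ρ n) * hs
    have h11 : (M *ᵥ w) (1, 1) = 0 := by
      rw [hw, e3, e4]
      ring
    have hnull : star w ⬝ᵥ (M *ᵥ w) = 0 := by
      simp only [dotProduct]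
      rw [Fintype.sum_prod_type]
      simp [Fin.sum_univ_three, Fin.sum_univ_two, w]
      rw [h00, h11]
      ring
    rw [hpsd.dotProduct_mulVec_zero_iff] at hnull
    have h20 := congrFun hnull (2, 0)
    rw [hw, e5, e6, Pi.zero_apply] at h20
    have h7 : ((y 2) 0 0 (n : OnePoint ℕ) - σ n) * ρ n = 0 := by
      linear_combination h20
    rcases mul_eq_zero.1 h7 with h8 | h8
    · exact sub_eq_zero.1 h8
    · exact absurd h8 (ρ_ne n)
  -- contradiction with continuity
  have hlim := (continuous_iff_from_nat ((y 2) 0 0)).1 ((y 2) 0 0).continuous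
  simp only [key] at hlim
  have he : Tendsto (fun n : ℕ => σ (2 * n)) atTop (𝓝 ((y 2) 0 0 ∞)) :=
    hlim.comp (tendsto_atTop_mono (fun n => by simp only [id]; omega) tendsto_id)
  have ho : Tendsto (fun n : ℕ => σ (2 * n + 1)) atTop (𝓝 ((y 2) 0 0 ∞)) :=
    hlim.comp (tendsto_atTop_mono (fun n => by simp only [id]; omega) tendsto_id)
  have he' : (fun n : ℕ => σ (2 * n)) = fun _ => 1 := by
    funext n; rw [σ, pow_mul]; norm_num
  have ho' : (fun n : ℕ => σ (2 * n + 1)) = fun _ => -1 := by
    funext n; rw [σ, pow_succ, pow_mul]; norm_num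
  rw [he'] at he
  rw [ho'] at ho
  have h1 := tendsto_nhds_unique he tendsto_const_nhds
  have h2 := tendsto_nhds_unique ho tendsto_const_nhds
  rw [h1] at h2
  norm_num at h2

/-- **Negative answer.**  The algebra `C(ℕ ∪ {∞})` of convergent sequences is in the positive
Toeplitz completion class, and the algebra of `2 × 2` matrices over it is not. -/
theorem result : PTC C(OnePoint ℕ, ℂ) ∧ ¬ PTC (CStarMatrix (Fin 2) (Fin 2) C(OnePoint ℕ, ℂ)) :=
  ⟨ptc_conv, not_ptc_M₂⟩

end Pool.Agent.Results.MP_a15892_an.NotStable
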